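import Pool.Agent.Lib.MP_6bc78b_nt.MS.GL.Iface
import Pool.Agent.Lib.MP_6bc78b_nt.MS.QZ.H62.Typ

/-! Project MS, Part GL, module MPD: the mean of the Poisson sum over the zeros. -/

set_option autoImplicit false

open Complex Filter Topology MeasureTheory ArithmeticFunction

namespace Pool.Agent.Lib.MP_6bc78b_nt.MS.GL.H82

open Pool.Agent.Lib.MP_6bc78b_nt Pool.Agent.Lib.MP_6bc78b_nt.LL Pool.Agent.Lib.MP_6bc78b_nt.MS
  Pool.Agent.Lib.MP_6bc78b_nt.MS.P1 Pool.Agent.Lib.MP_6bc78b_nt.MS.QZ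
open Pool.Agent.Lib.MP_6bc78b_nt.MS.QZ.H62.Typ

namespace Mpd

lemma PD_nonneg {δ : ℝ} (hδ : 0 ≤ δ) (y : ℝ) : 0 ≤ PD δ y :=
  tsum_nonneg fun γ => mul_nonneg (Nat.cast_nonneg _) (div_nonneg hδ (by positivity))

lemma cosh_ge {x : ℝ} (hx : 4 ≤ x) : 2 ≤ Real.cosh x := by
  rw [Real.cosh_eq]
  have h1 := Real.add_one_le_exp x
  have h2 := (Real.exp_pos (-x)).le
  linarith

lemma phd_bd {δ l ξ : ℝ} (hδ : 0 ≤ δ) (h0 : 0 ≤ ξ) (h1 : ξ ≤ l) :
    0 ≤ phd δ l ξ ∧ phd δ l ξ ≤ 1 := by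
  unfold phd
  have hc : 0 < Real.cosh (δ * l) := Real.cosh_pos _
  refine ⟨div_nonneg (Real.sinh_nonneg_iff.2 (mul_nonneg hδ (by linarith))) hc.le, ?_⟩
  rw [div_le_one hc]
  calc Real.sinh (δ * (l - ξ)) ≤ Real.sinh (δ * l) := Real.sinh_le_sinh.2 (by nlinarith)
    _ ≤ Real.cosh (δ * l) := (Real.sinh_lt_cosh _).le

/-- The coefficients of `QP`. -/
noncomputable def dp (φ : ℝ → ℝ) (lam T : ℝ) : ArithmeticFunction ℝ :=
  ⟨fun n => if n ∈ Finset.Icc 1 ⌊T ^ lam⌋₊ then vonMangoldt n * φ (Real.log n) else 0, by simp⟩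

lemma dp_apply (φ : ℝ → ℝ) (lam T : ℝ) (n : ℕ) :
    dp φ lam T n = if n ∈ Finset.Icc 1 ⌊T ^ lam⌋₊ then vonMangoldt n * φ (Real.log n) else 0 :=
  rfl

lemma dpoly_dp (φ : ℝ → ℝ) (lam T y : ℝ) :
    dpoly (dp φ lam T) (T ^ lam) (1 / 2 + y * I) = QP φ lam T y := by
  unfold dpoly QP
  apply Finset.sum_congr rfl
  intro n hn
  rw [dp_apply, if_pos hn]

lemma dpoly_one {x : ℝ} (hx : 1 ≤ x) (s : ℂ) : dpoly (1 : ArithmeticFunction ℝ) x s = 1 := by
  unfold dpoly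
  rw [Finset.sum_eq_single 1]
  · simp
  · intro n _ hn
    rw [ArithmeticFunction.one_apply_ne hn]
    simp
  · intro h
    exfalso
    apply h
    rw [Finset.mem_Icc]
    exact ⟨le_refl 1, Nat.le_floor (by exact_mod_cast hx)⟩

lemma sum_one {x : ℝ} (hx : 1 ≤ x) :
    ∑ n ∈ Finset.Icc 1 ⌊x⌋₊, (1 : ArithmeticFunction ℝ) n ^ 2 / (n : ℝ) = 1 := by
  rw [Finset.sum_eq_single 1]
  · simp
  · intro n _ hn
    rw [ArithmeticFunction.one_apply_ne hn]
    simp
  · intro h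
    exfalso
    apply h
    rw [Finset.mem_Icc]
    exact ⟨le_refl 1, Nat.le_floor (by exact_mod_cast hx)⟩

end Mpd

open Mpd in
/-- MPD -/
theorem mpd (h1 : ExdStatement) (h2 : DmvStatement) (h3 : L.MerStatement) : MpdStatement := by
  intro lam hl0 hl1
  obtain ⟨C1, hC1, hE⟩ := h1 (1 - lam) (by linarith) (by linarith)
  obtain ⟨C2, T2, hC2, hT2, hd⟩ := h2 (1 - lam) (by linarith) (by linarith)
  obtain ⟨C3, hC3, h3a, -, -⟩ := h3
  rw [show 1 - (1 - lam) = lam by ring] at hd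
  have hev : ∀ᶠ T : ℝ in atTop, T2 ≤ T ∧ 1 ≤ cG T * Real.log T ∧ 1 ≤ Real.log T ∧
      1 ≤ lam * Real.log T ∧ 6 ≤ T := by
    filter_upwards [eventually_ge_atTop T2, cGL_ge, Real.tendsto_log_atTop.eventually_ge_atTop 1,
      Real.tendsto_log_atTop.eventually_ge_atTop (1 / lam), eventually_ge_atTop 6]
      with T a1 a2 a3 a4 a5
    refine ⟨a1, a2, a3, ?_, a5⟩
    rw [div_le_iff₀ hl0] at a4
    linarith
  obtain ⟨T3, hT3⟩ := eventually_atTop.1 hev
  refine ⟨(4 + 2 * C1) * (2 * C2) + C2 * (2 + C3), max T3 4, by positivity, by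
    have := le_max_right T3 4
    linarith, fun T hT δ hδ1 hδ2 => ?_⟩
  obtain ⟨a1, a2, a3, a4, a5⟩ := hT3 T ((le_max_left _ _).trans hT)
  have hL0 : 0 < Real.log T := by linarith
  have hTpos : 0 < T := by linarith
  have hδ0 : 0 < δ := lt_of_lt_of_le (by positivity) hδ1
  set l := lam * Real.log T with hl
  have hl0' : 0 < l := by linarith
  have hδl : 4 ≤ δ * l := by
    rw [div_le_iff₀ hl0'] at hδ1
    exact hδ1
  have hcosh := cosh_ge hδl
  have hTl1 : 1 ≤ T ^ lam := Real.one_le_rpow (by linarith) hl0.le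
  have hTT : T ≤ T ^ (3 : ℝ) := by
    calc T = T ^ (1 : ℝ) := (Real.rpow_one _).symm
      _ ≤ T ^ (3 : ℝ) := Real.rpow_le_rpow_of_exponent_le (by linarith) (by norm_num)
  have hlogT : Real.log T ≤ T := (Real.log_le_sub_one_of_pos hTpos).trans (by linarith)
  -- the coefficients
  have hcoef : ∀ n ∈ Finset.Icc 1 ⌊T ^ lam⌋₊,
      0 ≤ dp (phd δ l) lam T n ∧ dp (phd δ l) lam T n ≤ vonMangoldt n ∧
      (vonMangoldt n : ℝ) ≤ Real.log T := by
    intro n hn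
    have hn1 : 1 ≤ n := (Finset.mem_Icc.1 hn).1
    have hnT : (n : ℝ) ≤ T ^ lam :=
      (Nat.le_floor_iff (by linarith)).1 (Finset.mem_Icc.1 hn).2
    have hn0 : (0 : ℝ) < n := by exact_mod_cast hn1
    have hlogn0 : 0 ≤ Real.log n := Real.log_nonneg (by exact_mod_cast hn1)
    have hlogn : Real.log n ≤ l := by
      have := Real.log_le_log hn0 hnT
      rwa [Real.log_rpow hTpos] at this
    obtain ⟨p0, p1⟩ := phd_bd hδ0.le hlogn0 hlogn
    have hΛ0 : (0 : ℝ) ≤ vonMangoldt n := vonMangoldt_nonneg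
    have hΛ1 : (vonMangoldt n : ℝ) ≤ Real.log n := vonMangoldt_le_log
    rw [dp_apply, if_pos hn]
    refine ⟨mul_nonneg hΛ0 p0, mul_le_of_le_one_right hΛ0 p1, hΛ1.trans (hlogn.trans ?_)⟩
    rw [hl]
    nlinarith
  -- mean of 1
  have hm1 : ∑ γ ∈ ZZ T, (mz γ : ℝ) * wt T γ ≤ 2 * C2 * (cG T * Real.log T) := by
    have h5 := hd T a1 (1 : ArithmeticFunction ℝ) (by
      intro n
      by_cases hn : n = 1
      · rw [hn, ArithmeticFunction.one_one, abs_one]
        linarith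
      · rw [ArithmeticFunction.one_apply_ne hn, abs_zero]
        linarith)
    rw [fsum_all, sum_one hTl1, mul_one] at h5
    have h6 : ∑ γ ∈ ZZ T, (mz γ : ℝ) * wt T γ *
        ‖dpoly (1 : ArithmeticFunction ℝ) (T ^ lam) (1 / 2 + γ * I)‖ ^ 2 =
        ∑ γ ∈ ZZ T, (mz γ : ℝ) * wt T γ := by
      apply Finset.sum_congr rfl
      intro γ _
      rw [dpoly_one hTl1, norm_one, one_pow, mul_one]
    rw [h6] at h5
    refine h5.trans ?_
    calc C2 * (cG T * Real.log T + 1) ≤ C2 * (cG T * Real.log T + cG T * Real.log T) := by gcongr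
      _ = 2 * C2 * (cG T * Real.log T) := by ring
  -- mean of |QP|^2
  have hm2 : ∑ γ ∈ ZZ T, (mz γ : ℝ) * wt T γ * ‖QP (phd δ l) lam T γ‖ ^ 2 ≤
      C2 * (2 + C3) * (cG T * Real.log T) * Real.log T ^ 2 := by
    have h5 := hd T a1 (dp (phd δ l) lam T) (by
      intro n
      by_cases hn : n ∈ Finset.Icc 1 ⌊T ^ lam⌋₊
      · obtain ⟨b0, b1, b2⟩ := hcoef n hn
        rw [abs_of_nonneg b0]
        linarith
      · rw [dp_apply, if_neg hn, abs_zero]
        linarith)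
    rw [fsum_all] at h5
    have h6 : ∑ γ ∈ ZZ T, (mz γ : ℝ) * wt T γ *
        ‖dpoly (dp (phd δ l) lam T) (T ^ lam) (1 / 2 + γ * I)‖ ^ 2 =
        ∑ γ ∈ ZZ T, (mz γ : ℝ) * wt T γ * ‖QP (phd δ l) lam T γ‖ ^ 2 := by
      apply Finset.sum_congr rfl
      intro γ _
      rw [dpoly_dp]
    rw [h6] at h5
    refine h5.trans ?_
    have h7 : ∑ n ∈ Finset.Icc 1 ⌊T ^ lam⌋₊, dp (phd δ l) lam T n ^ 2 / (n : ℝ) ≤
        (1 + C3) * Real.log T ^ 2 := by
      calc ∑ n ∈ Finset.Icc 1 ⌊T ^ lam⌋₊, dp (phd δ l) lam T n ^ 2 / (n : ℝ)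
          ≤ ∑ n ∈ Finset.Icc 1 ⌊T ^ lam⌋₊, Real.log T * L.w1 n := by
            apply Finset.sum_le_sum
            intro n hn
            obtain ⟨b0, b1, b2⟩ := hcoef n hn
            have hΛ0 : (0 : ℝ) ≤ vonMangoldt n := vonMangoldt_nonneg
            rw [L.w1, ← mul_div_assoc]
            have : dp (phd δ l) lam T n ^ 2 ≤ Real.log T * vonMangoldt n := by nlinarith
            gcongr
        _ = Real.log T * ∑ n ∈ Finset.Icc 1 ⌊T ^ lam⌋₊, L.w1 n := by rw [Finset.mul_sum]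
        _ ≤ Real.log T * ((1 + C3) * Real.log T) := by
            have h8 := (abs_le.1 (h3a (T ^ lam) hTl1)).2
            rw [Real.log_rpow hTpos] at h8
            have h9 : lam * Real.log T ≤ Real.log T := by nlinarith
            gcongr
            nlinarith
        _ = (1 + C3) * Real.log T ^ 2 := by ring
    have hcG0 : 0 ≤ cG T * Real.log T := by linarith
    calc C2 * (cG T * Real.log T * ∑ n ∈ Finset.Icc 1 ⌊T ^ lam⌋₊,
          dp (phd δ l) lam T n ^ 2 / (n : ℝ) + 1)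
        ≤ C2 * (cG T * Real.log T * ((1 + C3) * Real.log T ^ 2) +
            cG T * Real.log T * Real.log T ^ 2) := by
          gcongr
          nlinarith [mul_le_mul a2 (one_le_pow₀ a3 : 1 ≤ Real.log T ^ 2) zero_le_one hcG0]
      _ = C2 * (2 + C3) * (cG T * Real.log T) * Real.log T ^ 2 := by ring
  -- the pointwise bound
  have hpt : ∀ γ ∈ ZZ T, PD δ γ ≤ (4 + 2 * C1) * Real.log T +
      ‖QP (phd δ l) lam T γ‖ ^ 2 / Real.log T := by
    intro γ hγ
    have hγ' := (mem_ZZ T γ).1 hγ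
    have hγ1 : T / 2 < γ := hγ'.1
    have hγ2 : γ < 2 * T := hγ'.2.1
    have h5 := (abs_le.1 (hE T lam γ δ a5 a4 (by linarith) hγ1 hγ2 hδ0 hδ2)).2
    have hPD0 := PD_nonneg hδ0.le γ
    have h6 : PD δ γ / Real.cosh (δ * l) ≤ PD δ γ / 2 := by gcongr
    have h7 : |(QP (phd δ l) lam T γ).re| ≤ ‖QP (phd δ l) lam T γ‖ := Complex.abs_re_le_norm _
    have h8 := (abs_le.1 h7).1
    have hγpos : 0 < γ := by linarith
    have hlogγ0 : 0 ≤ Real.log γ := Real.log_nonneg (by linarith)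
    have hlogγ : Real.log γ ≤ 1 + Real.log T := by
      have h9 := Real.log_le_log hγpos hγ2.le
      rw [Real.log_mul (by norm_num) hTpos.ne'] at h9
      have := Real.log_two_lt_d9
      linarith
    have h9 : 1 / 2 * Real.log γ * Real.tanh (δ * l) ≤ 1 / 2 * Real.log γ :=
      mul_le_of_le_one_right (by positivity) (Real.tanh_lt_one _).le
    have h10 : 2 * ‖QP (phd δ l) lam T γ‖ ≤ Real.log T +
        ‖QP (phd δ l) lam T γ‖ ^ 2 / Real.log T := by
      have h11 : Real.log T + ‖QP (phd δ l) lam T γ‖ ^ 2 / Real.log T -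
          2 * ‖QP (phd δ l) lam T γ‖ =
          (Real.log T - ‖QP (phd δ l) lam T γ‖) ^ 2 / Real.log T := by
        field_simp
        ring
      have h12 : 0 ≤ (Real.log T - ‖QP (phd δ l) lam T γ‖) ^ 2 / Real.log T := by positivity
      linarith
    have h13 : 2 * C1 ≤ 2 * C1 * Real.log T := by nlinarith
    rw [← hl] at h5
    nlinarith
  rw [fsum_all]
  calc ∑ γ ∈ ZZ T, (mz γ : ℝ) * wt T γ * PD δ γ
      ≤ ∑ γ ∈ ZZ T, (mz γ : ℝ) * wt T γ * ((4 + 2 * C1) * Real.log T +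
          ‖QP (phd δ l) lam T γ‖ ^ 2 / Real.log T) := by
        apply Finset.sum_le_sum
        intro γ hγ
        have hw : 0 ≤ wt T γ := (Real.exp_pos _).le
        exact mul_le_mul_of_nonneg_left (hpt γ hγ) (by positivity)
    _ = (4 + 2 * C1) * Real.log T * ∑ γ ∈ ZZ T, (mz γ : ℝ) * wt T γ +
          (∑ γ ∈ ZZ T, (mz γ : ℝ) * wt T γ * ‖QP (phd δ l) lam T γ‖ ^ 2) / Real.log T := by
        rw [Finset.mul_sum, Finset.sum_div, ← Finset.sum_add_distrib]
        apply Finset.sum_congr rfl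
        intro γ _
        ring
    _ ≤ (4 + 2 * C1) * Real.log T * (2 * C2 * (cG T * Real.log T)) +
          (C2 * (2 + C3) * (cG T * Real.log T) * Real.log T ^ 2) / Real.log T := by gcongr
    _ = ((4 + 2 * C1) * (2 * C2) + C2 * (2 + C3)) * (cG T * Real.log T) * Real.log T := by
        field_simp

end Pool.Agent.Lib.MP_6bc78b_nt.MS.GL.H82
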