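import Pool.Agent.Lib.MP_6bc78b_nt.MS.GL.Iface
import Pool.Agent.Lib.MP_6bc78b_nt.MS.QZ.H62.Typ

/-! Project MS, Part GL, module QDM: the prime polynomial `QW` against the short prime sum. -/

set_option autoImplicit false

open Complex Filter Topology MeasureTheory ArithmeticFunction

namespace Pool.Agent.Lib.MP_6bc78b_nt.MS.GL.H82

open Pool.Agent.Lib.MP_6bc78b_nt Pool.Agent.Lib.MP_6bc78b_nt.LL Pool.Agent.Lib.MP_6bc78b_nt.MS
  Pool.Agent.Lib.MP_6bc78b_nt.MS.P1 Pool.Agent.Lib.MP_6bc78b_nt.MS.QZ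
open Pool.Agent.Lib.MP_6bc78b_nt.MS.QZ.H62.Typ

/-- The coefficients of `QW - P0`. -/
noncomputable def dq (lam K T : ℝ) : ArithmeticFunction ℝ :=
  ⟨fun n => if n ∈ Finset.Icc 1 ⌊T ^ lam⌋₊ then
    vonMangoldt n * wn lam K T n - (if n ∈ SS T 0 then 1 else 0) else 0, by simp⟩

lemma dq_apply (lam K T : ℝ) (n : ℕ) : dq lam K T n = if n ∈ Finset.Icc 1 ⌊T ^ lam⌋₊ then
    vonMangoldt n * wn lam K T n - (if n ∈ SS T 0 then 1 else 0) else 0 := rfl

lemma SS_sub {lam T : ℝ} (h : yy T 0 ≤ T ^ lam) : SS T 0 ⊆ Finset.Icc 1 ⌊T ^ lam⌋₊ := by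
  intro p hp
  have hp' : p ∈ (Finset.Icc 1 ⌊yy T 0⌋₊).filter (fun p : ℕ => p.Prime ∧ (1 : ℝ) < (p : ℝ)) := hp
  rw [Finset.mem_filter, Finset.mem_Icc] at hp'
  rw [Finset.mem_Icc]
  exact ⟨hp'.1.1, hp'.1.2.trans (Nat.floor_le_floor h)⟩

lemma dpoly_dq {lam K T : ℝ} (h : yy T 0 ≤ T ^ lam) (γ : ℝ) :
    dpoly (dq lam K T) (T ^ lam) (1 / 2 + γ * I) = QW lam K T γ - P0 T γ := by
  unfold dpoly QW P0 PS
  have e : ∑ p ∈ SS T 0, (p : ℂ) ^ (-(1 / 2 + γ * I : ℂ)) =
      ∑ n ∈ Finset.Icc 1 ⌊T ^ lam⌋₊, (if n ∈ SS T 0 then (n : ℂ) ^ (-(1 / 2 + γ * I : ℂ)) else 0) := by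
    rw [← Finset.sum_filter]
    apply Finset.sum_congr _ (fun _ _ => rfl)
    ext p
    rw [Finset.mem_filter]
    exact ⟨fun hp => ⟨SS_sub h hp, hp⟩, fun hp => hp.2⟩
  rw [e, ← Finset.sum_sub_distrib]
  apply Finset.sum_congr rfl
  intro n hn
  rw [dq_apply, if_pos hn]
  split_ifs
  · push_cast
    ring
  · push_cast
    ring

/-- The pointwise bound for the coefficients. -/
lemma dq_sq {lam K T : ℝ} (hK : 0 ≤ K + 2 / lam) (hL : 0 < Real.log T)
    (hw : ∀ n : ℕ, 2 ≤ n → (n : ℝ) ≤ T ^ lam →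
      0 ≤ wn lam K T n ∧ Real.log n * wn lam K T n ≤ 1 ∧
      |Real.log n * wn lam K T n - 1| ≤
        (K + 2 / lam) * (Real.log n / Real.log T) + (n : ℝ) ^ (-(3 / 4) : ℝ))
    (n : ℕ) (hn : n ∈ Finset.Icc 1 ⌊T ^ lam⌋₊) (hT : 0 ≤ T ^ lam) :
    |dq lam K T n| ≤ 2 ∧ dq lam K T n ^ 2 / (n : ℝ) ≤
      (K + 2 / lam) / Real.log T * L.w1 n + (n : ℝ) ^ (-(7 / 4) : ℝ) +
      (if n ∈ prs (yy T 0) (T ^ lam) then (n : ℝ)⁻¹ else 0) +
      2 * (if ¬ n.Prime then L.w1 n else 0) := by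
  have hn1 : 1 ≤ n := (Finset.mem_Icc.1 hn).1
  have hnT : (n : ℝ) ≤ T ^ lam := (Nat.le_floor_iff hT).1 (Finset.mem_Icc.1 hn).2
  have hn0 : (0 : ℝ) < n := by exact_mod_cast hn1
  have hw1 : 0 ≤ L.w1 n := div_nonneg vonMangoldt_nonneg hn0.le
  have hr : (0 : ℝ) ≤ (n : ℝ) ^ (-(7 / 4) : ℝ) := Real.rpow_nonneg hn0.le _
  have ht1 : 0 ≤ (K + 2 / lam) / Real.log T * L.w1 n := by positivity
  have ht2 : (0 : ℝ) ≤ (if n ∈ prs (yy T 0) (T ^ lam) then (n : ℝ)⁻¹ else 0) := by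
    split_ifs <;> positivity
  have ht3 : (0 : ℝ) ≤ 2 * (if ¬ n.Prime then L.w1 n else 0) := by
    split_ifs
    · simp
    · positivity
  have hS : n ∈ SS T 0 ↔ n.Prime ∧ (n : ℝ) ≤ yy T 0 := by
    have : n ∈ SS T 0 ↔
        n ∈ (Finset.Icc 1 ⌊yy T 0⌋₊).filter (fun p : ℕ => p.Prime ∧ (1 : ℝ) < (p : ℝ)) := Iff.rfl
    rw [this, Finset.mem_filter, Finset.mem_Icc]
    constructor
    · rintro ⟨⟨h1, h2⟩, h3, h4⟩
      exact ⟨h3, (Nat.le_floor_iff' (by omega)).1 h2⟩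
    · rintro ⟨h1, h2⟩
      exact ⟨⟨hn1, (Nat.le_floor_iff' (by omega)).2 h2⟩, h1, by exact_mod_cast h1.one_lt⟩
  rw [dq_apply, if_pos hn]
  rcases Nat.lt_or_ge n 2 with h2 | h2
  · have e1 : n = 1 := by omega
    have hnS : n ∉ SS T 0 := by
      rw [hS]
      rintro ⟨h1, _⟩
      exact Nat.not_prime_one (e1 ▸ h1)
    have hz : (vonMangoldt n : ℝ) = 0 := by rw [e1, vonMangoldt_apply_one]
    rw [if_neg hnS, hz, zero_mul, sub_zero, abs_zero, zero_pow (by norm_num), zero_div]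
    exact ⟨by norm_num, by linarith⟩
  · obtain ⟨w0, w1', w2'⟩ := hw n h2 hnT
    have hLn : 0 < Real.log n := Real.log_pos (by exact_mod_cast h2)
    by_cases hp : n.Prime
    · have hΛ : (vonMangoldt n : ℝ) = Real.log n := vonMangoldt_apply_prime hp
      have hw1' : L.w1 n = Real.log n / n := by rw [L.w1, hΛ]
      rw [hΛ]
      set x := Real.log n * wn lam K T n with hx
      have hx0 : 0 ≤ x := mul_nonneg hLn.le w0
      by_cases hnS : n ∈ SS T 0
      · rw [if_pos hnS]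
        have ha : |x - 1| ≤ 1 := by
          rw [abs_le]
          constructor <;> linarith
        refine ⟨by linarith, ?_⟩
        have hsq : (x - 1) ^ 2 ≤ |x - 1| := by
          rw [← sq_abs]
          nlinarith [abs_nonneg (x - 1)]
        have h3 : (x - 1) ^ 2 / (n : ℝ) ≤
            ((K + 2 / lam) * (Real.log n / Real.log T) + (n : ℝ) ^ (-(3 / 4) : ℝ)) / n := by
          gcongr
          exact hsq.trans w2'
        have h4 : ((K + 2 / lam) * (Real.log n / Real.log T) + (n : ℝ) ^ (-(3 / 4) : ℝ)) / n =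
            (K + 2 / lam) / Real.log T * L.w1 n + (n : ℝ) ^ (-(7 / 4) : ℝ) := by
          rw [hw1']
          have : (n : ℝ) ^ (-(7 / 4) : ℝ) = (n : ℝ) ^ (-(3 / 4) : ℝ) / n := by
            rw [show (-(7 / 4) : ℝ) = -(3 / 4) - 1 by norm_num, Real.rpow_sub_one hn0.ne']
          rw [this]
          field_simp
        linarith
      · rw [if_neg hnS, sub_zero]
        have hmem : n ∈ prs (yy T 0) (T ^ lam) := by
          unfold prs
          rw [Finset.mem_filter]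
          refine ⟨hn, hp, ?_⟩
          by_contra hc
          exact hnS (hS.2 ⟨hp, not_lt.1 hc⟩)
        rw [if_pos hmem]
        refine ⟨by rw [abs_of_nonneg hx0]; linarith, ?_⟩
        have hsq : x ^ 2 ≤ 1 := by nlinarith
        have h3 : x ^ 2 / (n : ℝ) ≤ (n : ℝ)⁻¹ := by
          rw [← one_div]
          gcongr
        linarith
    · have hnS : n ∉ SS T 0 := by
        rw [hS]
        rintro ⟨h1, _⟩
        exact hp h1
      rw [if_neg hnS, sub_zero, if_pos hp]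
      have hΛ0 : (0 : ℝ) ≤ vonMangoldt n := vonMangoldt_nonneg
      have hΛ1 : (vonMangoldt n : ℝ) ≤ Real.log n := vonMangoldt_le_log
      set x := (vonMangoldt n : ℝ) * wn lam K T n with hx
      have hx0 : 0 ≤ x := mul_nonneg hΛ0 w0
      have hx1 : x ≤ 1 := (mul_le_mul_of_nonneg_right hΛ1 w0).trans w1'
      have hl2 : (1 : ℝ) / 2 ≤ Real.log n := by
        have h5 : Real.log 2 ≤ Real.log n := Real.log_le_log (by norm_num) (by exact_mod_cast h2)
        have h6 := Real.log_two_gt_d9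
        linarith
      have hw2 : wn lam K T n ≤ 2 := by
        by_contra hc
        push Not at hc
        nlinarith
      have hx2 : x ≤ 2 * vonMangoldt n := by
        rw [hx, mul_comm]
        exact mul_le_mul_of_nonneg_right hw2 hΛ0
      refine ⟨by rw [abs_of_nonneg hx0]; linarith, ?_⟩
      have hsq : x ^ 2 ≤ 2 * vonMangoldt n := by nlinarith
      have h3 : x ^ 2 / (n : ℝ) ≤ 2 * L.w1 n := by
        rw [L.w1, ← mul_div_assoc]
        gcongr
      linarith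

/-- QDM -/
theorem qdm (h1 : DmvStatement) (h2 : WnbStatement) (h3 : Mr2Statement)
    (h4 : L.MerStatement) : QdmStatement := by
  intro lam K hl0 hl1 hK
  obtain ⟨C1, T1, hC1, hT1, hd⟩ := h1 (1 - lam) (by linarith) (by linarith)
  obtain ⟨T2, hT2, hw⟩ := h2 lam K hl0 hl1 hK
  obtain ⟨C3, hC3, -, -, h3c⟩ := h3
  obtain ⟨C4, hC4, h4a, -, h4c⟩ := h4
  -- the constants
  have hsum : Summable (fun n : ℕ => (n : ℝ) ^ (-(7 / 4) : ℝ)) :=
    Real.summable_nat_rpow.2 (by norm_num)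
  set Z := ∑' n : ℕ, (n : ℝ) ^ (-(7 / 4) : ℝ) with hZ
  have hZ0 : 0 ≤ Z := tsum_nonneg fun n => Real.rpow_nonneg (Nat.cast_nonneg n) _
  have hKl : 0 ≤ K + 2 / lam := by positivity
  set B := (K + 2 / lam) * (1 + C4) + Z + (2 + C3) + 2 * C4 with hB
  have hB0 : 0 ≤ B := by positivity
  have hev : ∀ᶠ T : ℝ in atTop, T1 ≤ T ∧ T2 ≤ T ∧ 1 ≤ cG T * Real.log T ∧ 1 ≤ Real.log T ∧
      2 ≤ yy T 0 ∧ yy T 0 ≤ T ^ lam ∧ 1 ≤ ll T ∧ 2 ≤ T ∧ 0 < Real.log (yy T 0) := by
    have e1 : Tendsto (fun T : ℝ => ll T ^ 2) atTop atTop :=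
      (tendsto_pow_atTop (by norm_num)).comp ll_tendsto
    have e2 : ∀ᶠ x : ℝ in atTop, Real.log x ^ 2 ≤ x := by
      have h5 := (isLittleO_log_rpow_atTop (show (0 : ℝ) < 1 / 2 by norm_num)).bound
        (show (0 : ℝ) < 1 by norm_num)
      filter_upwards [h5, eventually_ge_atTop (1 : ℝ)] with x hx hx1
      rw [one_mul, Real.norm_of_nonneg (Real.log_nonneg hx1),
        Real.norm_of_nonneg (Real.rpow_nonneg (by linarith) _)] at hx
      calc Real.log x ^ 2 ≤ (x ^ (1 / 2 : ℝ)) ^ 2 := by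
            have := Real.log_nonneg hx1
            gcongr
        _ = x := by
            rw [← Real.rpow_natCast, ← Real.rpow_mul (by linarith)]
            norm_num
    filter_upwards [eventually_ge_atTop T1, eventually_ge_atTop T2, cGL_ge,
      Real.tendsto_log_atTop.eventually_ge_atTop 1, e1.eventually_ge_atTop (1 / lam),
      Real.tendsto_log_atTop.eventually e2, ll_tendsto.eventually_ge_atTop 1,
      eventually_ge_atTop 2] with T a1 a2 a3 a4 a5 a6 a7 a8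
    have hdl : dl T 0 = 1 / ll T ^ 2 := by
      unfold dl
      simp
    have hll2 : 0 < ll T ^ 2 := by positivity
    have hlog : Real.log (yy T 0) = Real.log T / ll T ^ 2 := by
      unfold yy
      rw [Real.log_rpow (by linarith), hdl]
      ring
    have a6' : ll T ^ 2 ≤ Real.log T := a6
    have hly : 1 ≤ Real.log (yy T 0) := by
      rw [hlog, le_div_iff₀ hll2]
      linarith
    have hypos : 0 < yy T 0 := Real.rpow_pos_of_pos (by linarith) _
    refine ⟨a1, a2, a3, a4, ?_, ?_, a7, a8, by linarith⟩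
    · have h6 : Real.exp 1 ≤ yy T 0 := by
        rw [← Real.exp_log hypos]
        exact Real.exp_le_exp.2 hly
      have := Real.exp_one_gt_d9
      linarith
    · unfold yy
      apply Real.rpow_le_rpow_of_exponent_le (by linarith)
      rw [hdl, div_le_iff₀ hll2]
      rw [div_le_iff₀ hl0] at a5
      linarith
  obtain ⟨T3, hT3⟩ := eventually_atTop.1 hev
  refine ⟨C1 * (B + 1), max T3 4, by positivity, by
    have := le_max_right T3 4
    linarith, fun T hT => ?_⟩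
  obtain ⟨a1, a2, a3, a4, a5, a6, a7, a8, a9⟩ := hT3 T ((le_max_left _ _).trans hT)
  have hL0 : 0 < Real.log T := by linarith
  have hTl0 : 0 ≤ T ^ lam := Real.rpow_nonneg (by linarith) _
  have hw' := hw T a2
  have hpt := dq_sq hKl hL0 hw'
  have hdT := hd T a1 (dq lam K T) (by
    intro n
    have h5 : (2 : ℝ) ≤ T ^ (3 : ℝ) := by
      calc (2 : ℝ) ≤ T := a8
        _ = T ^ (1 : ℝ) := (Real.rpow_one _).symm
        _ ≤ T ^ (3 : ℝ) := Real.rpow_le_rpow_of_exponent_le (by linarith) (by norm_num)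
    by_cases hn : n ∈ Finset.Icc 1 ⌊T ^ lam⌋₊
    · exact ((hpt n hn hTl0).1).trans h5
    · rw [dq_apply, if_neg hn, abs_zero]
      linarith)
  rw [show 1 - (1 - lam) = lam by ring] at hdT
  have hfs : ∑ᶠ γ ∈ zset T, (mz γ : ℝ) * wt T γ * ‖QW lam K T γ - P0 T γ‖ ^ 2 =
      ∑ᶠ γ ∈ zset T, (mz γ : ℝ) * wt T γ * ‖dpoly (dq lam K T) (T ^ lam) (1 / 2 + γ * I)‖ ^ 2 := by
    apply finsum_congr
    intro γ
    apply finsum_congr
    intro _
    rw [dpoly_dq a6]
  rw [hfs]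
  refine hdT.trans ?_
  -- the norm of the coefficients
  have hnorm : ∑ n ∈ Finset.Icc 1 ⌊T ^ lam⌋₊, dq lam K T n ^ 2 / (n : ℝ) ≤
      B * (1 + Real.log (ll T)) := by
    have hs1 : ∑ n ∈ Finset.Icc 1 ⌊T ^ lam⌋₊, (K + 2 / lam) / Real.log T * L.w1 n ≤
        (K + 2 / lam) * (1 + C4) := by
      rw [← Finset.mul_sum]
      have h5 := (abs_le.1 (h4a (T ^ lam) (Real.one_le_rpow (by linarith) hl0.le))).2
      have h6 : Real.log (T ^ lam) ≤ Real.log T := by
        rw [Real.log_rpow (by linarith)]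
        nlinarith
      have h7 : ∑ n ∈ Finset.Icc 1 ⌊T ^ lam⌋₊, L.w1 n ≤ (1 + C4) * Real.log T := by nlinarith
      calc (K + 2 / lam) / Real.log T * ∑ n ∈ Finset.Icc 1 ⌊T ^ lam⌋₊, L.w1 n
          ≤ (K + 2 / lam) / Real.log T * ((1 + C4) * Real.log T) := by gcongr
        _ = (K + 2 / lam) * (1 + C4) := by field_simp
    have hs2 : ∑ n ∈ Finset.Icc 1 ⌊T ^ lam⌋₊, (n : ℝ) ^ (-(7 / 4) : ℝ) ≤ Z :=
      hsum.sum_le_tsum _ (fun n _ => Real.rpow_nonneg (Nat.cast_nonneg n) _)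
    have hs3 : ∑ n ∈ Finset.Icc 1 ⌊T ^ lam⌋₊,
        (if n ∈ prs (yy T 0) (T ^ lam) then (n : ℝ)⁻¹ else 0) ≤ 2 * Real.log (ll T) + C3 := by
      have h5 : ∑ n ∈ Finset.Icc 1 ⌊T ^ lam⌋₊,
          (if n ∈ prs (yy T 0) (T ^ lam) then (n : ℝ)⁻¹ else 0) = rs (prs (yy T 0) (T ^ lam)) := by
        rw [← Finset.sum_filter]
        unfold rs
        apply Finset.sum_congr _ (fun _ _ => rfl)
        ext n
        rw [Finset.mem_filter]
        refine ⟨fun h => h.2, fun h => ⟨?_, h⟩⟩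
        unfold prs at h
        exact (Finset.mem_filter.1 h).1
      rw [h5]
      refine (h3c (yy T 0) (T ^ lam) a5 a6).trans ?_
      have hll2 : 0 < ll T ^ 2 := by positivity
      have hlog : Real.log (yy T 0) = Real.log T / ll T ^ 2 := by
        unfold yy dl
        rw [Real.log_rpow (by linarith)]
        simp
        ring
      have h6 : Real.log (T ^ lam) / Real.log (yy T 0) = lam * ll T ^ 2 := by
        rw [hlog, Real.log_rpow (by linarith)]
        field_simp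
      rw [h6]
      have h7 : Real.log (lam * ll T ^ 2) ≤ Real.log (ll T ^ 2) :=
        Real.log_le_log (by positivity) (by nlinarith)
      rw [Real.log_pow] at h7
      push_cast at h7
      linarith
    have hs4 : ∑ n ∈ Finset.Icc 1 ⌊T ^ lam⌋₊, 2 * (if ¬ n.Prime then L.w1 n else 0) ≤
        2 * C4 := by
      rw [← Finset.mul_sum, ← Finset.sum_filter]
      have := h4c ⌊T ^ lam⌋₊
      linarith
    have hlogll : 0 ≤ Real.log (ll T) := Real.log_nonneg a7
    calc ∑ n ∈ Finset.Icc 1 ⌊T ^ lam⌋₊, dq lam K T n ^ 2 / (n : ℝ)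
        ≤ ∑ n ∈ Finset.Icc 1 ⌊T ^ lam⌋₊, ((K + 2 / lam) / Real.log T * L.w1 n +
            (n : ℝ) ^ (-(7 / 4) : ℝ) + (if n ∈ prs (yy T 0) (T ^ lam) then (n : ℝ)⁻¹ else 0) +
            2 * (if ¬ n.Prime then L.w1 n else 0)) :=
          Finset.sum_le_sum fun n hn => (hpt n hn hTl0).2
      _ ≤ (K + 2 / lam) * (1 + C4) + Z + (2 * Real.log (ll T) + C3) + 2 * C4 := by
          rw [Finset.sum_add_distrib, Finset.sum_add_distrib, Finset.sum_add_distrib]
          linarith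
      _ ≤ B * (1 + Real.log (ll T)) := by
          rw [hB]
          have h8 : 0 ≤ ((K + 2 / lam) * (1 + C4) + Z + C3 + 2 * C4) * Real.log (ll T) := by
            positivity
          nlinarith
  have hlogll : 0 ≤ Real.log (ll T) := Real.log_nonneg a7
  have hcG0 : 0 ≤ cG T * Real.log T := by linarith
  calc C1 * (cG T * Real.log T * ∑ n ∈ Finset.Icc 1 ⌊T ^ lam⌋₊, dq lam K T n ^ 2 / (n : ℝ) + 1)
      ≤ C1 * (cG T * Real.log T * (B * (1 + Real.log (ll T))) +
          cG T * Real.log T * (1 + Real.log (ll T))) := by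
        gcongr
        nlinarith
    _ = C1 * (B + 1) * (cG T * Real.log T) * (1 + Real.log (ll T)) := by ring

end Pool.Agent.Lib.MP_6bc78b_nt.MS.GL.H82
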